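import Pool.Agent.H33.VF

/-!
Varieties with a rational map, dominant or with an image of dimension at least two, to a projective
manifold with positive 2-forms (for surfaces: of general type) and a Hermitian metric of nonpositive
holomorphic sectional curvature are not Brody-special.
-/

set_option autoImplicit false

open LinearAlgebra.Projectivization MvPolynomial Topology
open Pool.Agent.W602.GT Pool.Agent.N155.BB Pool.Agent.H33

/-- Let `X = {F = 0}` be a projective manifold of dimension `d ≥ 2` whose 2-forms are positive: there
are finitely many sections of `Sym ^ ν (Λ² Ω) ⊗ O (-1)`, for some `ν > 0`, whose values at `(v ∧ w) ^ ν`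
are not all zero for linearly independent tangent vectors `v`, `w`. This holds if `Λ² Ω` is ample, and
if `d = 2`, it holds if the canonical bundle is ample. Let `Φ` be a metric on `X` whose holomorphic
sectional curvature is nonpositive; here `Φ` is a Hermitian metric with twice continuously
differentiable coefficients, or more generally a uniformly convex complex Finsler metric. (A surface
of general type with such a metric does not contain rational curves, so its canonical bundle is
ample, and the theorem applies.)

Let `V = {G = 0}` be any projective algebraic set, and `P` a rational map from `V` to `X`.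

* For every point `x` of `X` there is a form `E` which does not vanish identically on `X` near `x` such
  that for all holomorphic maps `g` from the complex plane to `V` the following is true: the image of
  `g` is contained in the closed subset of `V` where `P` is not defined or `E (P) = 0`, or it is
  contained in a fibre of `P` (where the points in which `P` is not defined belong to all fibres).
* If `P` is dominant, then `V` is not Brody-special: there are no holomorphic maps from the complex plane
  to `V` with Zariski-dense image.
* If `V` is irreducible and the image of `P` has dimension at least two, then there is a form `T` which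
  is not identically zero on `V` such that the image of every holomorphic map from the complex plane
  to `V` is contained in `{T = 0}` or in a fibre of `P` (in the same sense), and `V` is not
  Brody-special.

As `X` and all its subvarieties of dimension at least two are of general type, `V` is not special if `P` is
dominant or has an image of dimension at least two. So Campana's conjecture holds for these `V`. -/
theorem Pool.Agent.Results.MP_1209e6_ag.DominatingNonpositiveCurvature.result {m n d ν : ℕ}
    {ι ι' κ : Type} [Finite κ] (F : ι → MvPolynomial (Fin (n + 1)) ℂ) (hX : ProjManifold F d)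
    (η : κ → (Fin (n + 1) → ℂ) → (Fin (n + 1) → ℂ) → (Fin (n + 1) → ℂ) → ℂ)
    (hη : PositiveTwoForms (Cone F) ∅ d η) (hν : ν ≠ 0) (hh : HomForms (Cone F) ν η)
    (Φ : (Fin (n + 1) → ℂ) → (Fin (n + 1) → ℂ) → ℝ) (hΦ : NonposMetric (Cone F) d Φ)
    (hnd : Nondegenerate (Cone F) d Φ)
    (hr : HermitianMetric (Cone F) d Φ ∨ UniformlyConvex (Cone F) d Φ) (hd : 2 ≤ d)
    (G : ι' → MvPolynomial (Fin (m + 1)) ℂ) (P : Fin (n + 1) → MvPolynomial (Fin (m + 1)) ℂ)
    (hP : RationalMap G F P) :
    (∀ x ∈ Cone F, ∃ E : MvPolynomial (Fin (n + 1)) ℂ, IsForm E ∧
      (¬ ∀ᶠ y in 𝓝[Cone F] x, eval y E = 0) ∧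
      ∀ g, HolIn G g →
        (∀ z, ratVal P (g z).rep = 0 ∨ eval (ratVal P (g z).rep) E = 0) ∨
        ∃ x₀ ∈ Cone F, ∀ z, ∃ c : ℂ, ratVal P (g z).rep = c • x₀) ∧
    (Dominant G F P → ¬ BrodySpecial G) ∧
    (IrreducibleSet G → TwoDimensional G P →
      (∃ T : MvPolynomial (Fin (m + 1)) ℂ, IsForm T ∧ (∃ y ∈ Cone G, eval y T ≠ 0) ∧
        ∀ g, HolIn G g → (∀ z, eval (g z).rep T = 0) ∨
          ∃ x₀ ∈ Cone F, ∀ z, ∃ c : ℂ, ratVal P (g z).rep = c • x₀) ∧
      ¬ BrodySpecial G) :=
  ⟨(not_brodySpecial hX hη hν hh hΦ hnd hr hd G P hP).1,
    (not_brodySpecial hX hη hν hh hΦ hnd hr hd G P hP).2,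
    fun hirr hdim => entire_or_fibre hX hη hν hh hΦ hnd hr hP hirr hdim⟩
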