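import Pool.Agent.H31.MP.Main

/-!
Campana's conjecture for the varieties of the tuples of matrices whose high powers have
characteristic polynomials which satisfy given algebraic equations.
-/

set_option autoImplicit false

open Pool.Agent.H31.MP
open Pool.Agent.W602.GT (Special BrodySpecial coords GeneralType)
open Pool.Agent.W619.TW (IsUnirational)

/-- Let `q`, `k`, `D` be natural numbers, and
`m > q k ² ⋅ 4 ⋅ 10 ^ ((D k + 1) ^ (q k)) ⋅ ((q k)! + 1) ^ 7`. Let `g e` be any system of polynomials in
`q k` variables, of degree at most `D`, and consider the tuples `(A 1, …, A q)` of complex
`k × k` matrices such that the coefficients of the characteristic polynomials of the powers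
`A 1 ^ m, …, A q ^ m` satisfy the equations `g e = 0`. They form a closed subset of the affine space
of dimension `q k ²`, the preimage of an arbitrary affine algebraic set in `ℂ ^ (q k)`. Let `M` be any
irreducible component of this set, `a` its generic point, and `L` its function field, of
transcendence degree `w`. Let `X` be any projective variety with the function field `L`, with the
generic point `x` (in homogeneous coordinates). Then the following are equivalent:

1. `X` is special (in the sense of Campana);
2. `X` is Brody-special: there is a holomorphic map from the complex plane to `X` with Zariski-dense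
   image;
3. there is no dominant rational map from `X` to a variety of general type of positive dimension;
4. `X` is unirational;
5. `M` is the Zariski closure of the set of all tuples of matrices whose eigenvalues are the points
   of a translate of a subtorus. -/
theorem Pool.Agent.Results.MP_1209e6_ag.MatrixPowers.result {q k D m : ℕ}
    (hm : q * k * k * (4 * 10 ^ (D * k + 1) ^ (q * k) * ((q * k).factorial + 1) ^ 7) < m)
    {ι : Type} {g : ι → MvPolynomial (Fin q × Fin k) ℂ} (hD : ∀ e, (g e).totalDegree ≤ D)
    {L : Type} [Field L] [Algebra ℂ L] {a : Fin q × Fin k × Fin k → L}
    (ha : IsPowComponent m g a) {w : ℕ} (hw : Algebra.trdeg ℂ L = w)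
    {M : ℕ} {x : Fin (M + 1) → L} (hx : x ≠ 0) (hgen : coords ℂ x = ⊤) :
    [Special ℂ L w (fun _ => False),
      BrodySpecial (∅ : Set (Fin (M + 1))) x,
      ∀ (v : ℕ) (K : IntermediateField ℂ L), 1 ≤ v → ¬ GeneralType ℂ K v,
      IsUnirational ℂ L w,
      IsTorusClosure a].TFAE :=
  main hm hD ha hw hx hgen
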